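import Pool.Agent.H66.WS.Crit

/-!
Consequences of the local criterion.
-/

open Filter Subgroup Pool.Agent.Helper202WS

namespace Pool.Agent.H66.WS

universe u

/-- extensions -/
theorem sws_ext {G : Type u} [Group G] (N : Subgroup G) [N.Normal] (hN : SubgroupWeaklySofic N)
    (hQ : SubgroupWeaklySofic (G ⧸ N)) : SubgroupWeaklySofic G := by
  apply sws_of_local
  intro P _ hP
  by_cases h : P ≤ N
  · obtain ⟨a, ha⟩ := Subgroup.ne_bot_iff_exists_ne_one.1 hP
    obtain ⟨x, hx, hx1⟩ : ∃ x : G, x ∈ P ∧ x ≠ 1 := ⟨a, a.2, fun h => ha (Subtype.ext h)⟩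
    refine ⟨N, inferInstance, hN, Subgroup.inclusion h, ⟨x, hx⟩, ?_⟩
    intro h1
    exact hx1 (congrArg Subtype.val h1)
  · obtain ⟨x, hx, hxN⟩ := Set.not_subset.1 h
    refine ⟨G ⧸ N, inferInstance, hQ, (QuotientGroup.mk' N).comp P.subtype, ⟨x, hx⟩, ?_⟩
    intro h1
    exact hxN ((QuotientGroup.eq_one_iff x).1 h1)

/-- a nontrivial finitely generated group has a simple quotient -/
theorem exists_simple {P : Type u} [Group P] (hfg : Group.FG P) (hP : Nontrivial P) :
    ∃ M : Subgroup P, M.Normal ∧ ∀ [M.Normal], IsSimpleGroup (P ⧸ M) := by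
  classical
  obtain ⟨S, hS⟩ := hfg.out
  have hz : ∃ M : Subgroup P, Maximal (fun N : Subgroup P => N.Normal ∧ N ≠ ⊤) M := by
    obtain ⟨M, _, hM⟩ := zorn_le_nonempty₀ {N : Subgroup P | N.Normal ∧ N ≠ ⊤} (by
      intro c hc hchain y hy
      refine ⟨sSup c, ⟨?_, ?_⟩, fun z hz => le_sSup hz⟩
      · have hdir : DirectedOn (· ≤ ·) c := hchain.directedOn
        constructor
        intro x hx g
        rw [Subgroup.mem_sSup_of_directedOn ⟨y, hy⟩ hdir] at hx ⊢
        obtain ⟨s, hs, hxs⟩ := hx
        exact ⟨s, hs, (hc hs).1.conj_mem x hxs g⟩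
      · intro htop
        have hdir : DirectedOn (· ≤ ·) c := hchain.directedOn
        have h1 : ∀ T : Finset P, ∃ s ∈ c, (T : Set P) ⊆ s := by
          intro T
          induction T using Finset.induction_on with
          | empty => exact ⟨y, hy, by simp⟩
          | insert a T _ ih =>
            obtain ⟨s, hs, hT⟩ := ih
            have ha : a ∈ sSup c := by rw [htop]; trivial
            rw [Subgroup.mem_sSup_of_directedOn ⟨y, hy⟩ hdir] at ha
            obtain ⟨s', hs', has⟩ := ha
            obtain ⟨s'', hs'', h1, h2⟩ := hdir s hs s' hs'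
            refine ⟨s'', hs'', ?_⟩
            intro x hx
            rcases Finset.mem_insert.1 (by simpa using hx) with rfl | hx
            · exact h2 has
            · exact h1 (hT hx)
        obtain ⟨s, hs, hT⟩ := h1 S
        apply (hc hs).2
        rw [eq_top_iff, ← hS, Subgroup.closure_le]
        exact hT) ⊥ ⟨inferInstance, bot_ne_top⟩
    exact ⟨M, hM⟩
  obtain ⟨M, hM⟩ := hz
  refine ⟨M, hM.1.1, ?_⟩
  intro hMn
  have hnt : Nontrivial (P ⧸ M) := by
    obtain ⟨x, _, hx⟩ := SetLike.exists_of_lt (lt_top_iff_ne_top.2 hM.1.2)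
    refine ⟨⟨(x : P ⧸ M), 1, ?_⟩⟩
    intro h
    exact hx ((QuotientGroup.eq_one_iff x).1 h)
  refine { exists_pair_ne := hnt.exists_pair_ne, eq_bot_or_eq_top_of_normal := ?_ }
  intro H hH
  by_cases htop : H = ⊤
  · exact Or.inr htop
  · left
    have h1 : (H.comap (QuotientGroup.mk' M)).Normal ∧ H.comap (QuotientGroup.mk' M) ≠ ⊤ := by
      refine ⟨inferInstance, ?_⟩
      intro h
      apply htop
      rw [eq_top_iff]
      intro x _
      obtain ⟨y, rfl⟩ := QuotientGroup.mk'_surjective M x
      have : y ∈ H.comap (QuotientGroup.mk' M) := by rw [h]; trivial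
      exact this
    have h2 : M ≤ H.comap (QuotientGroup.mk' M) := by
      intro x hx
      show (QuotientGroup.mk' M) x ∈ H
      have : QuotientGroup.mk' M x = 1 := (QuotientGroup.eq_one_iff x).2 hx
      rw [this]
      exact one_mem _
    have h3 := hM.2 h1 h2
    rw [eq_bot_iff]
    intro x hx
    obtain ⟨y, rfl⟩ := QuotientGroup.mk'_surjective M x
    exact Subgroup.mem_bot.2 ((QuotientGroup.eq_one_iff y).2 (h3 hx))

/-- reduction to finitely generated simple groups -/
theorem sws_of_simple (h : ∀ (S : Type u) [Group S], Group.FG S → IsSimpleGroup S →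
    SubgroupWeaklySofic S) (G : Type u) [Group G] : SubgroupWeaklySofic G := by
  apply sws_of_local
  intro P hP hP1
  have hfg : Group.FG P := (Group.fg_iff_subgroup_fg P).2 hP
  have hnt : Nontrivial P := (Subgroup.nontrivial_iff_ne_bot P).2 hP1
  obtain ⟨M, hM, hMs⟩ := exists_simple hfg hnt
  have hs := hMs
  have hS := h (P ⧸ M) (QuotientGroup.fg M) hs
  obtain ⟨x, hx⟩ := exists_ne (1 : P ⧸ M)
  obtain ⟨y, rfl⟩ := QuotientGroup.mk'_surjective M x
  exact ⟨P ⧸ M, inferInstance, hS, QuotientGroup.mk' M, y, hx⟩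

/-- the normalised Hamming distance -/
noncomputable def ham {n : ℕ} (σ τ : Equiv.Perm (Fin n)) : ℝ :=
  ((Finset.univ.filter fun i => σ i ≠ τ i).card : ℝ) / n

/-- soficity -/
def Sofic (G : Type u) [Group G] : Prop :=
  ∀ (F : Finset G) (ε : ℝ), 0 < ε → ∃ (n : ℕ) (_ : 0 < n) (σ : G → Equiv.Perm (Fin n)),
    (∀ g ∈ F, ∀ h ∈ F, ham (σ (g * h)) (σ g * σ h) < ε) ∧ ∀ g ∈ F, g ≠ 1 → 1 - ε < ham (σ g) 1

theorem sws_of_sofic {G : Type u} [Group G] (h : Sofic G) : SubgroupWeaklySofic G := by
  classical
  intro F ε hε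
  obtain ⟨n, hn, σ, h1, h2⟩ := h F (min (ε / 2) (1 / 2)) (by positivity)
  have hn' : (0 : ℝ) < n := by exact_mod_cast hn
  have hcard : ∀ σ τ : Equiv.Perm (Fin n), ham σ τ =
      ((Finset.univ.filter fun i => σ i ≠ τ i).card : ℝ) / n := fun _ _ => rfl
  refine ⟨Equiv.Perm (Fin n), inferInstance, inferInstance, fun σ τ => 2 * ham σ τ, σ,
    ⟨?_, ?_, ?_, ?_, ?_, ?_⟩, ?_, ?_, ?_⟩
  · intro x; simp [ham]
  · intro x y hxy
    have h3 : ham x y = 0 := by linarith
    rw [hcard, div_eq_zero_iff] at h3
    rcases h3 with h3 | h3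
    · have h4 : (Finset.univ.filter fun i => x i ≠ y i) = ∅ := by
        rw [← Finset.card_eq_zero]; exact_mod_cast h3
      ext i
      by_contra h5
      have h6 : i ∈ (Finset.univ.filter fun i => x i ≠ y i) := by
        rw [Finset.mem_filter]
        exact ⟨Finset.mem_univ _, fun h7 => h5 (by rw [h7])⟩
      rw [h4] at h6
      exact absurd h6 (Finset.notMem_empty i)
    · exact absurd h3 hn'.ne'
  · intro x y
    simp only [ham, ne_comm]
  · intro x y z
    have h3 : (Finset.univ.filter fun i => x i ≠ z i) ⊆ (Finset.univ.filter fun i => x i ≠ y i) ∪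
        (Finset.univ.filter fun i => y i ≠ z i) := by
      intro i hi
      rw [Finset.mem_filter] at hi
      rw [Finset.mem_union, Finset.mem_filter, Finset.mem_filter]
      by_cases h4 : x i = y i
      · right
        exact ⟨Finset.mem_univ _, fun h5 => hi.2 (h4.trans h5)⟩
      · left
        exact ⟨Finset.mem_univ _, h4⟩
    have h4 := (Finset.card_le_card h3).trans (Finset.card_union_le _ _)
    have h5 : ham x z ≤ ham x y + ham y z := by
      rw [hcard, hcard, hcard, ← add_div]
      apply div_le_div_of_nonneg_right _ hn'.le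
      exact_mod_cast h4
    show 2 * ham x z ≤ 2 * ham x y + 2 * ham y z
    linarith
  · intro a x y
    have : (Finset.univ.filter fun i => (a * x) i ≠ (a * y) i) =
        (Finset.univ.filter fun i => x i ≠ y i) := by
      ext i
      simp
    show 2 * ham (a * x) (a * y) = 2 * ham x y
    rw [hcard, hcard, this]
  · intro a x y
    have : (Finset.univ.filter fun i => (x * a) i ≠ (y * a) i).card =
        (Finset.univ.filter fun i => x i ≠ y i).card := by
      apply Finset.card_bij (fun i _ => a i)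
      · intro i hi
        rw [Finset.mem_filter] at hi ⊢
        exact ⟨Finset.mem_univ _, hi.2⟩
      · intro i _ j _ hij
        exact a.injective hij
      · intro j hj
        refine ⟨a.symm j, ?_, by simp⟩
        rw [Finset.mem_filter] at hj ⊢
        refine ⟨Finset.mem_univ _, ?_⟩
        rw [Equiv.Perm.mul_apply, Equiv.Perm.mul_apply, Equiv.apply_symm_apply]
        exact hj.2
    show 2 * ham (x * a) (y * a) = 2 * ham x y
    rw [hcard, hcard, this]
  · intro S x hx
    have h3 : (Finset.univ.filter fun i => x i ≠ (1 : Equiv.Perm (Fin n)) i) ⊆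
        S.biUnion (fun s => Finset.univ.filter fun i => s i ≠ (1 : Equiv.Perm (Fin n)) i) := by
      intro i hi
      rw [Finset.mem_filter] at hi
      rw [Finset.mem_biUnion]
      by_contra hcon
      push Not at hcon
      apply hi.2
      have h4 : Subgroup.closure (S : Set (Equiv.Perm (Fin n))) ≤
          MulAction.stabilizer (Equiv.Perm (Fin n)) i := by
        rw [Subgroup.closure_le]
        intro s hs
        have h5 := hcon s hs
        rw [Finset.mem_filter] at h5
        push Not at h5
        exact h5 (Finset.mem_univ _)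
      exact h4 hx
    have h4 := (Finset.card_le_card h3).trans Finset.card_biUnion_le
    show 2 * ham x 1 ≤ ∑ s ∈ S, 2 * ham s 1
    rw [← Finset.mul_sum]
    apply mul_le_mul_of_nonneg_left _ (by norm_num)
    simp only [hcard]
    rw [← Finset.sum_div]
    apply div_le_div_of_nonneg_right _ hn'.le
    exact_mod_cast h4
  · intro g hg k hk _
    have h3 := (h1 g hg k hk).le.trans (min_le_left _ _)
    show 2 * ham _ _ ≤ ε
    linarith
  · intro g hg hg1
    have h3 := h2 g hg hg1
    have h4 := min_le_right (ε / 2) (1 / 2 : ℝ)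
    show 1 ≤ 2 * ham _ _
    linarith

end Pool.Agent.H66.WS
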