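import Pool.Agent.H66.WS.Local

/-!
The local criterion for subgroup weak soficity, conclusion.
-/

set_option linter.unusedSectionVars false

open Filter Subgroup Pool.Agent.Helper202WS

namespace Pool.Agent.H66.WS

universe u

theorem fg_map {X Y : Type*} [Group X] [Group Y] {P : Subgroup X} (h : P.FG) (e : X →* Y) :
    (P.map e).FG := by
  classical
  obtain ⟨S, hS⟩ := h
  refine ⟨S.image e, ?_⟩
  rw [Finset.coe_image, ← MonoidHom.map_closure, hS]

/-- If `G` is not subgroup weakly sofic, then some nontrivial finitely generated subgroup has no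
nontrivial homomorphism to a subgroup weakly sofic group. -/
theorem exists_fg {G : Type u} [Group G] (hG : ¬ SubgroupWeaklySofic G) :
    ∃ P : Subgroup G, P.FG ∧ P ≠ ⊥ ∧
      ∀ (K : Type u) (_ : Group K), SubgroupWeaklySofic K → ∀ f : P →* K, ∀ x, f x = 1 := by
  classical
  let α := G
  let π : FreeGroup α →* G := FreeGroup.lift id
  have hπ : ∀ g : G, π (FreeGroup.of g) = g := by
    intro g; simp [π]
  have hmodel : ∀ V : FI α, ∃ (H : Type) (_ : Group H) (_ : Finite H) (q : FreeGroup α →* H),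
      Function.Surjective q ∧ q.ker = V.1 := by
    intro V
    have := V.2.1
    have := V.2.2
    obtain ⟨H, iG, iF, ⟨e⟩⟩ := exists_model (K := FreeGroup α ⧸ V.1)
    refine ⟨H, iG, iF, e.toMonoidHom.comp (QuotientGroup.mk' V.1),
      e.surjective.comp (QuotientGroup.mk'_surjective V.1), ?_⟩
    ext x
    rw [MonoidHom.mem_ker]
    show e (QuotientGroup.mk' V.1 x) = 1 ↔ _
    rw [map_eq_one_iff e e.injective]
    exact QuotientGroup.eq_one_iff x
  choose H iG iF q hqs hqk using hmodel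
  let 𝓤 : Ultrafilter (FI α) := Ultrafilter.of atTop
  have hle : (𝓤 : Filter (FI α)) ≤ atTop := Ultrafilter.of_le _
  have ev : ∀ U : FI α, ∀ᶠ V in (𝓤 : Filter (FI α)), V.1 ≤ U.1 := by
    intro U
    exact hle (Filter.eventually_atTop.2 ⟨U, fun V hV => hV⟩)
  let Q : FreeGroup α →* (∀ V, H V) := MonoidHom.pi q
  have hQ : ∀ x V, Q x V = q V x := fun x V => rfl
  let M0 : Subgroup (∀ V, H V) := Subgroup.normalClosure (Q '' (π.ker : Set (FreeGroup α)))
  have hN0 : M0.Normal := Subgroup.normalClosure_normal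
  have hbad : ∃ g : G, g ≠ 1 ∧ Q (FreeGroup.of g) ∈ cl 𝓤 M0 := by
    by_contra hcon
    push Not at hcon
    apply hG
    refine of_ultra 𝓤 iF (cl 𝓤 M0) (cl_normal 𝓤 M0 hN0) (cl_closed 𝓤 M0)
      (fun g => Q (FreeGroup.of g)) ?_ hcon
    intro g h
    apply le_cl
    rw [← map_inv, ← map_mul, ← map_mul]
    apply Subgroup.subset_normalClosure
    refine ⟨_, ?_, rfl⟩
    show π (FreeGroup.of g * FreeGroup.of h * (FreeGroup.of (g * h))⁻¹) = 1
    rw [map_mul, map_mul, map_inv, hπ, hπ, hπ, mul_inv_cancel]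
  obtain ⟨g, hg1, T, hTfin, hTM, hTg⟩ := hbad
  obtain ⟨S, hS1, hS2, hS3⟩ := closure_finite hTfin
    (S := Group.conjugatesOfSet (Q '' (π.ker : Set (FreeGroup α)))) hTM
  let J : Type u := S
  have hJ : Finite J := hS2
  have hch : ∀ j : J, ∃ (n : FreeGroup α) (y : ∀ V, H V), π n = 1 ∧
      (j : ∀ V, H V) = y * Q n * y⁻¹ := by
    intro j
    obtain ⟨a, ⟨n, hn, rfl⟩, ha⟩ := Group.mem_conjugatesOfSet_iff.1 (hS1 j.2)
    obtain ⟨c, hc⟩ := isConj_iff.1 ha
    exact ⟨n, c, hn, hc.symm⟩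
  choose n y hn hy using hch
  choose z0 hz0 using fun (V : FI α) (j : J) => hqs V (y j V)⁻¹
  have hval : ∀ (V : FI α) (j : J), (j : ∀ V, H V) V = q V ((z0 V j)⁻¹ * n j * z0 V j) := by
    intro V j
    rw [hy j]
    show y j V * q V (n j) * (y j V)⁻¹ = _
    rw [map_mul, map_mul, map_inv, hz0, inv_inv]
  -- membership at level `V`
  have hlev : ∀ᶠ V in (𝓤 : Filter (FI α)), FreeGroup.of g ∈
      Subgroup.closure (Set.range fun j : J => (z0 V j)⁻¹ * n j * z0 V j) ⊔ V.1 := by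
    filter_upwards [hTg] with V hV
    have h1 : gen T V ≤ (Subgroup.closure (Set.range fun j : J => (z0 V j)⁻¹ * n j * z0 V j)).map
        (q V) := by
      have h2 : gen T V ≤ (Subgroup.closure S).map (Pi.evalMonoidHom H V) := by
        rw [gen, Subgroup.closure_le]
        rintro _ ⟨t, ht, rfl⟩
        exact ⟨t, hS3 ht, rfl⟩
      refine h2.trans ?_
      rw [MonoidHom.map_closure, MonoidHom.map_closure, Subgroup.closure_le]
      rintro _ ⟨s, hs, rfl⟩
      apply Subgroup.subset_closure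
      refine ⟨_, ⟨(⟨s, hs⟩ : J), rfl⟩, ?_⟩
      exact (hval V ⟨s, hs⟩).symm
    obtain ⟨w, hw1, hw2⟩ := h1 hV
    have h3 : w⁻¹ * FreeGroup.of g ∈ V.1 := by
      rw [← hqk V, MonoidHom.mem_ker, map_mul, map_inv, hw2]
      show (Q (FreeGroup.of g) V)⁻¹ * q V (FreeGroup.of g) = 1
      rw [hQ, inv_mul_cancel]
    have h4 : FreeGroup.of g = w * (w⁻¹ * FreeGroup.of g) := by group
    rw [h4]
    exact mul_mem (Subgroup.mem_sup_left hw1) (Subgroup.mem_sup_right h3)
  -- the limit points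
  have hlim : ∀ (U : FI α) (j : J), ∃ Y : FreeGroup α,
      ∀ᶠ V in (𝓤 : Filter (FI α)), (z0 V j)⁻¹ * Y ∈ U.1 := by
    intro U j
    have := U.2.2
    have hfin : Finite (FreeGroup α ⧸ U.1) := Subgroup.finite_quotient_of_finiteIndex
    have h1 : ∀ᶠ V in (𝓤 : Filter (FI α)), ∃ a : FreeGroup α ⧸ U.1,
        ((z0 V j : FreeGroup α) : FreeGroup α ⧸ U.1) = a :=
      Filter.Eventually.of_forall (fun V => ⟨_, rfl⟩)
    rw [Ultrafilter.eventually_exists_iff] at h1
    obtain ⟨a, ha⟩ := h1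
    obtain ⟨Y, rfl⟩ := QuotientGroup.mk_surjective a
    refine ⟨Y, ?_⟩
    filter_upwards [ha] with V hV
    exact QuotientGroup.eq.1 hV
  choose z hzlim using hlim
  have hz : ∀ U V : FI α, V.1 ≤ U.1 → ∀ j, (z V j)⁻¹ * z U j ∈ U.1 := by
    intro U V hVU j
    obtain ⟨W, h1, h2⟩ := ((hzlim U j).and (hzlim V j)).exists
    have e : (z V j)⁻¹ * z U j = ((z0 W j)⁻¹ * z V j)⁻¹ * ((z0 W j)⁻¹ * z U j) := by group
    rw [e]
    exact mul_mem (inv_mem (hVU h2)) h1
  have hgΦ : FreeGroup.of g ∈ Phi n z := by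
    rw [mem_Phi]
    intro U
    have h1 : ∀ᶠ V in (𝓤 : Filter (FI α)), ∀ j, (z0 V j)⁻¹ * z U j ∈ U.1 :=
      Filter.eventually_all.2 (fun j => hzlim U j)
    obtain ⟨V, h2, h3, h4⟩ := (h1.and ((ev U).and hlev)).exists
    have h5 : Subgroup.closure (Set.range fun j : J => (z0 V j)⁻¹ * n j * z0 V j) ⊔ V.1 ≤
        TT n z U := by
      apply sup_le
      · rw [Subgroup.closure_le]
        rintro _ ⟨j, rfl⟩
        have e : (z0 V j)⁻¹ * n j * z0 V j = ((z0 V j)⁻¹ * z U j) *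
          ((z U j)⁻¹ * n j * z U j) * ((z0 V j)⁻¹ * z U j)⁻¹ := by group
        show (z0 V j)⁻¹ * n j * z0 V j ∈ TT n z U
        rw [e]
        exact mul_mem (mul_mem (le_TT U (h2 j)) (mem_TT U j)) (inv_mem (le_TT U (h2 j)))
      · exact h3.trans (le_TT U)
    exact h5 h4
  -- the subgroup
  refine ⟨(Phi n z).map π, fg_map (Phi_fg hz) π, ?_, ?_⟩
  · intro hbot
    apply hg1
    have h1 : π (FreeGroup.of g) ∈ (Phi n z).map π := ⟨_, hgΦ, rfl⟩
    rw [hbot, Subgroup.mem_bot, hπ] at h1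
    exact h1
  · intro K iK hK f x
    let χ : Phi n z →* K := f.comp (π.subgroupMap (Phi n z))
    have h1 := main_lemma hz hK χ (by
      intro j f' hf'
      show f _ = 1
      have e : π.subgroupMap (Phi n z) ⟨f'⁻¹ * n j * f', hf'.mem⟩ = 1 := by
        apply Subtype.ext
        show π (f'⁻¹ * n j * f') = 1
        rw [map_mul, map_mul, hn, mul_one, map_inv, inv_mul_cancel]
      rw [e, map_one])
    obtain ⟨w, hw⟩ := MonoidHom.subgroupMap_surjective π (Phi n z) x
    rw [← hw]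
    exact h1 w

/-- The local criterion. -/
theorem sws_of_local {G : Type u} [Group G]
    (h : ∀ P : Subgroup G, P.FG → P ≠ ⊥ → ∃ (K : Type u) (_ : Group K) (_ : SubgroupWeaklySofic K)
      (f : P →* K) (x : P), f x ≠ 1) : SubgroupWeaklySofic G := by
  by_contra hG
  obtain ⟨P, h1, h2, h3⟩ := exists_fg hG
  obtain ⟨K, iK, hK, f, x, hx⟩ := h P h1 h2
  exact hx (h3 K iK hK f x)

end Pool.Agent.H66.WS
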