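import Mathlib

/-!
Holonomy cocycles of a free group acting on a set, with values in a group.
-/

namespace Pool.Agent.H66.WS

universe u v w x

variable {α : Type u} {Z : Type v} {B : Type w} [Group B] [MulAction (FreeGroup α) Z]

/-- the permutation of `Z × B` attached to a letter and a labelling -/
def letterPerm (c : α → Z → B) (a : α) : Equiv.Perm (Z × B) where
  toFun p := (FreeGroup.of a • p.1, c a p.1 * p.2)
  invFun p := ((FreeGroup.of a)⁻¹ • p.1, (c a ((FreeGroup.of a)⁻¹ • p.1))⁻¹ * p.2)
  left_inv p := by simp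
  right_inv p := by simp

/-- the action of the free group on `Z × B` attached to a labelling -/
def act (c : α → Z → B) : FreeGroup α →* Equiv.Perm (Z × B) := FreeGroup.lift (letterPerm c)

/-- the holonomy -/
def hol (c : α → Z → B) (u : FreeGroup α) (z : Z) : B := (act c u (z, 1)).2

theorem act_apply (c : α → Z → B) (u : FreeGroup α) :
    ∀ (z : Z) (b : B), act c u (z, b) = (u • z, hol c u z * b) := by
  induction u using FreeGroup.induction_on with
  | C1 => intro z b; simp [hol]
  | of a => intro z b; simp [hol, act, letterPerm]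
  | inv_of a _ => intro z b; simp [hol, act, letterPerm, Equiv.Perm.inv_def]
  | mul x y hx hy =>
    intro z b
    have e1 : ∀ b, act c (x * y) (z, b) = ((x * y) • z, hol c x (y • z) * (hol c y z * b)) := by
      intro b
      rw [map_mul, Equiv.Perm.mul_apply, hy, hx, mul_smul]
    have e2 : hol c (x * y) z = hol c x (y • z) * hol c y z := by
      show (act c (x * y) (z, 1)).2 = _
      rw [e1]; simp
    rw [e1, e2, mul_assoc]

theorem hol_mul (c : α → Z → B) (x y : FreeGroup α) (z : Z) :
    hol c (x * y) z = hol c x (y • z) * hol c y z := by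
  have := act_apply c (x * y) z 1
  rw [map_mul, Equiv.Perm.mul_apply, act_apply, act_apply, mul_one, mul_one] at this
  exact (congrArg Prod.snd this).symm

theorem hol_one (c : α → Z → B) (z : Z) : hol c 1 z = 1 := by simp [hol]

theorem hol_of (c : α → Z → B) (a : α) (z : Z) : hol c (FreeGroup.of a) z = c a z := by
  simp [hol, act, letterPerm]

theorem hol_inv (c : α → Z → B) (x : FreeGroup α) (z : Z) :
    hol c x⁻¹ z = (hol c x (x⁻¹ • z))⁻¹ := by
  have h := hol_mul c x x⁻¹ z
  rw [mul_inv_cancel, hol_one] at h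
  exact (eq_inv_of_mul_eq_one_right h.symm)

/-- a cocycle is determined by its values on the letters -/
theorem hol_unique (c : α → Z → B) (C : FreeGroup α → Z → B)
    (hC : ∀ x y z, C (x * y) z = C x (y • z) * C y z) (h : ∀ a z, C (FreeGroup.of a) z = c a z)
    (u : FreeGroup α) : ∀ z, C u z = hol c u z := by
  have h1 : ∀ z, C 1 z = 1 := by
    intro z
    have := hC 1 1 z
    rw [one_smul, mul_one] at this
    exact (left_eq_mul.mp this)
  induction u using FreeGroup.induction_on with
  | C1 => intro z; rw [h1, hol_one]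
  | of a => intro z; rw [h, hol_of]
  | inv_of a ih =>
    intro z
    rw [hol_inv]
    have h2 := hC (FreeGroup.of a) (FreeGroup.of a)⁻¹ z
    rw [mul_inv_cancel, h1, ih] at h2
    exact (eq_inv_of_mul_eq_one_right h2.symm)
  | mul x y hx hy =>
    intro z
    rw [hC, hx, hy, hol_mul]

theorem hol_map {B' : Type x} [Group B'] (π : B →* B') (c : α → Z → B) (u : FreeGroup α) (z : Z) :
    π (hol c u z) = hol (fun a z => π (c a z)) u z := by
  refine hol_unique (fun a z => π (c a z)) (fun u z => π (hol c u z)) ?_ ?_ u z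
  · intro x y z; simp only [hol_mul, map_mul]
  · intro a z; simp only [hol_of]

theorem hol_trivial (u : FreeGroup α) (z : Z) : hol (fun (_ : α) (_ : Z) => (1 : B)) u z = 1 := by
  refine (hol_unique (fun (_ : α) (_ : Z) => (1 : B)) (fun u z => (1 : B)) ?_ ?_ u z).symm
  · intro x y z; simp
  · intro a z; rfl

/-- The holonomy along `u` only depends on finitely many vertices. -/
theorem hol_local (u : FreeGroup α) : ∃ E : Finset (FreeGroup α),
    ∀ (Z : Type v) (Z' : Type x) (_ : MulAction (FreeGroup α) Z) (_ : MulAction (FreeGroup α) Z')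
      (B : Type w) (_ : Group B) (θ : Z' → Z) (_ : ∀ (g : FreeGroup α) (z : Z'), θ (g • z) = g • θ z)
      (c : α → Z → B) (c' : α → Z' → B) (z : Z')
      (_ : ∀ e ∈ E, ∀ a, c a (θ (e • z)) = c' a (e • z)), hol c u (θ z) = hol c' u z := by
  classical
  induction u using FreeGroup.induction_on with
  | C1 =>
    refine ⟨∅, ?_⟩
    intro Z Z' _ _ B _ θ hθ c c' z h
    rw [hol_one, hol_one]
  | of a =>
    refine ⟨{1}, ?_⟩
    intro Z Z' _ _ B _ θ hθ c c' z h
    rw [hol_of, hol_of]
    simpa using h 1 (by simp) a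
  | inv_of a _ =>
    refine ⟨{(FreeGroup.of a)⁻¹}, ?_⟩
    intro Z Z' _ _ B _ θ hθ c c' z h
    rw [hol_inv, hol_inv, hol_of, hol_of]
    have := h (FreeGroup.of a)⁻¹ (by simp) a
    rw [← this, hθ]
  | mul x y hx hy =>
    obtain ⟨E1, h1⟩ := hx
    obtain ⟨E2, h2⟩ := hy
    refine ⟨E2 ∪ E1.image (fun e => e * y), ?_⟩
    intro Z Z' _ _ B _ θ hθ c c' z h
    rw [hol_mul, hol_mul]
    rw [h2 Z Z' _ _ B _ θ hθ c c' z (fun e he a => h e (Finset.mem_union_left _ he) a)]
    rw [← hθ]
    rw [h1 Z Z' _ _ B _ θ hθ c c' (y • z) (fun e he a => by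
      have := h (e * y) (Finset.mem_union_right _ (Finset.mem_image_of_mem _ he)) a
      rwa [mul_smul] at this)]

end Pool.Agent.H66.WS
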