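import Pool.Agent.H66.WS.MainLemma

/-!
The local criterion for subgroup weak soficity.
-/

set_option linter.unusedSectionVars false

open Filter Subgroup Pool.Agent.Helper202WS

namespace Pool.Agent.H66.WS

universe u

/-- a finite type without algebraic structure -/
def Fib (n : ℕ) : Type := Fin n

instance (n : ℕ) : Finite (Fib n) := inferInstanceAs (Finite (Fin n))

/-- every finite group has a model in `Type` -/
theorem exists_model {K : Type u} [Group K] [Finite K] :
    ∃ (H : Type) (_ : Group H) (_ : Finite H), Nonempty (K ≃* H) := by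
  let e : K ≃ Fib (Nat.card K) := Finite.equivFin K
  let iG : Group (Fib (Nat.card K)) := e.symm.group
  refine ⟨Fib (Nat.card K), iG, inferInstance, ⟨?_⟩⟩
  exact (Equiv.mulEquiv e.symm).symm

theorem sws_of_finite (K : Type u) [Group K] [Finite K] : SubgroupWeaklySofic K := by
  classical
  intro F ε hε
  obtain ⟨H, iG, iF, ⟨e⟩⟩ := exists_model (K := K)
  refine ⟨H, iG, iF, fun x y => if x = y then 0 else 1, fun g => e g, ⟨?_, ?_, ?_, ?_, ?_, ?_⟩,
    ?_, ?_, ?_⟩
  · intro x; simp
  · intro x y h
    by_contra hne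
    simp [hne] at h
  · intro x y
    simp only [eq_comm]
  · intro x y z
    by_cases h1 : x = y
    · subst h1; simp
    · by_cases h2 : y = z
      · subst h2; simp
      · simp only [h1, h2, if_false]
        split_ifs <;> norm_num
  · intro a x y; simp
  · intro a x y; simp
  · intro S x hx
    by_cases hx1 : x = 1
    · subst hx1
      simp only [if_true]
      exact Finset.sum_nonneg (fun s _ => by split_ifs <;> norm_num)
    · have : ∃ s ∈ S, s ≠ 1 := by
        by_contra hcon
        push Not at hcon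
        apply hx1
        have h1 : Subgroup.closure (S : Set H) ≤ ⊥ := by
          rw [Subgroup.closure_le]
          intro s hs
          exact Subgroup.mem_bot.2 (hcon s hs)
        exact Subgroup.mem_bot.1 (h1 hx)
      obtain ⟨s, hs, hs1⟩ := this
      have h2 := Finset.single_le_sum (f := fun t : H => if t = 1 then (0 : ℝ) else 1)
        (fun t _ => by split_ifs <;> norm_num) hs
      simp only [hs1, if_false] at h2
      simp only [hx1, if_false]
      exact h2
  · intro g _ h _ _
    simp [hε.le]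
  · intro g _ hg
    have : e g ≠ 1 := fun h => hg (by simpa using h)
    simp [this]

theorem closure_finite {X : Type*} [Group X] {S T : Set X} (hT : T.Finite)
    (h : T ⊆ Subgroup.closure S) : ∃ S' ⊆ S, S'.Finite ∧ T ⊆ Subgroup.closure S' := by
  have key : ∀ x ∈ Subgroup.closure S, ∃ S' ⊆ S, S'.Finite ∧ x ∈ Subgroup.closure S' := by
    intro x hx
    induction hx using Subgroup.closure_induction with
    | mem x hx =>
      exact ⟨{x}, by simpa using hx, Set.finite_singleton x, Subgroup.subset_closure rfl⟩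
    | one => exact ⟨∅, Set.empty_subset _, Set.finite_empty, one_mem _⟩
    | mul x y _ _ hx hy =>
      obtain ⟨S1, h1, h2, h3⟩ := hx
      obtain ⟨S2, h4, h5, h6⟩ := hy
      exact ⟨S1 ∪ S2, Set.union_subset h1 h4, h2.union h5,
        mul_mem (Subgroup.closure_mono Set.subset_union_left h3)
          (Subgroup.closure_mono Set.subset_union_right h6)⟩
    | inv x _ hx =>
      obtain ⟨S1, h1, h2, h3⟩ := hx
      exact ⟨S1, h1, h2, inv_mem h3⟩
  choose! f h1 h2 h3 using key
  refine ⟨⋃ t ∈ T, f t, Set.iUnion₂_subset (fun t ht => h1 t (h ht)),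
    hT.biUnion (fun t ht => h2 t (h ht)), ?_⟩
  intro t ht
  exact Subgroup.closure_mono (Set.subset_biUnion_of_mem ht) (h3 t (h ht))

instance {α : Type u} : Preorder (FI α) where
  le U V := V.1 ≤ U.1
  le_refl U := le_rfl
  le_trans U V W h1 h2 := le_trans h2 h1

theorem FI.le_def {α : Type u} {U V : FI α} : U ≤ V ↔ V.1 ≤ U.1 := Iff.rfl

instance {α : Type u} : Nonempty (FI α) := ⟨⟨⊤, inferInstance, inferInstance⟩⟩

instance {α : Type u} : IsDirectedOrder (FI α) := ⟨by
  intro U V
  have i1 := U.2.1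
  have i2 := V.2.1
  have i3 := U.2.2
  have i4 := V.2.2
  exact ⟨⟨U.1 ⊓ V.1, inferInstance, inferInstance⟩, (inf_le_left : U.1 ⊓ V.1 ≤ U.1),
    (inf_le_right : U.1 ⊓ V.1 ≤ V.1)⟩⟩

/-- The trace subgroup is finitely generated. -/
theorem Phi_fg {α J : Type u} [Finite J] {n : J → FreeGroup α} {z : FI α → J → FreeGroup α}
    (hz : ∀ U V : FI α, V.1 ≤ U.1 → ∀ j, (z V j)⁻¹ * z U j ∈ U.1) : (Phi n z).FG := by
  classical
  let Φ := Phi n z
  let b := IsFreeGroup.basis Φ
  have hrep : ∀ j, ∃ f, (∃ f, Rep n z j f) → Rep n z j f := by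
    intro j
    by_cases h : ∃ f, Rep n z j f
    · obtain ⟨f, hf⟩ := h
      exact ⟨f, fun _ => hf⟩
    · exact ⟨1, fun h' => absurd h' h⟩
  choose f hf using hrep
  let T : Set Φ := {x | ∃ j, Rep n z j (f j) ∧ (x : FreeGroup α) = (f j)⁻¹ * n j * f j}
  have hT : T.Finite := by
    apply (Set.finite_range (fun j : J => if h : Rep n z j (f j) then
      (⟨(f j)⁻¹ * n j * f j, h.mem⟩ : Φ) else 1)).subset
    rintro x ⟨j, hj, hx⟩
    refine ⟨j, ?_⟩
    show (if h : Rep n z j (f j) then (⟨(f j)⁻¹ * n j * f j, h.mem⟩ : Φ) else 1) = x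
    rw [dif_pos hj]
    exact Subtype.ext hx.symm
  have hb : Subgroup.closure (Set.range b) = ⊤ := by
    rw [eq_top_iff]
    intro x _
    have h1 : (b.repr.symm (b.repr x)) ∈ Subgroup.closure (Set.range b) := by
      generalize b.repr x = y
      induction y using FreeGroup.induction_on with
      | C1 => rw [map_one]; exact one_mem _
      | of a => exact Subgroup.subset_closure ⟨a, rfl⟩
      | inv_of a h => rw [map_inv]; exact inv_mem h
      | mul x y hx hy => rw [map_mul]; exact mul_mem hx hy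
    rwa [MulEquiv.symm_apply_apply] at h1
  obtain ⟨S', h1, h2, h3⟩ := closure_finite hT (S := Set.range b) (by rw [hb]; exact fun _ _ => trivial)
  let A := ULift.{u} (Multiplicative (ZMod 2))
  let χ : Φ →* A := b.lift (fun i => if b i ∈ S' then 1 else ULift.up (Multiplicative.ofAdd 1))
  have hχS : ∀ x ∈ Subgroup.closure S', χ x = 1 := by
    intro x hx
    induction hx using Subgroup.closure_induction with
    | mem x hx =>
      obtain ⟨i, rfl⟩ := h1 hx
      show FreeGroup.lift _ (b.repr (b i)) = 1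
      rw [FreeGroupBasis.repr_apply_coe, FreeGroup.lift_apply_of, if_pos hx]
    | one => exact map_one _
    | mul x y _ _ hx hy => rw [map_mul, hx, hy, one_mul]
    | inv x _ hx => rw [map_inv, hx, inv_one]
  have hA : SubgroupWeaklySofic A := by
    have : Finite (ZMod 2) := inferInstance
    have : Finite A := inferInstanceAs (Finite (ULift.{u} (Multiplicative (ZMod 2))))
    exact sws_of_finite A
  have hmain := main_lemma hz hA χ (by
    intro j g hg
    have hj : Rep n z j (f j) := hf j ⟨g, hg⟩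
    have e1 : g⁻¹ * f j ∈ Φ := by
      rw [mem_Phi]
      intro U
      have : g⁻¹ * f j = (g⁻¹ * z U j) * ((f j)⁻¹ * z U j)⁻¹ := by group
      rw [this]
      exact mul_mem (hg U) (inv_mem (hj U))
    let φ : Φ := ⟨_, e1⟩
    have e2 : (⟨g⁻¹ * n j * g, hg.mem⟩ : Φ) = φ * ⟨(f j)⁻¹ * n j * f j, hj.mem⟩ * φ⁻¹ := by
      apply Subtype.ext
      show g⁻¹ * n j * g = (g⁻¹ * f j) * ((f j)⁻¹ * n j * f j) * (g⁻¹ * f j)⁻¹
      group
    rw [e2, map_mul, map_mul, hχS _ (h3 (show (⟨(f j)⁻¹ * n j * f j, hj.mem⟩ : Φ) ∈ T from ⟨j, hj, rfl⟩)), mul_one, map_inv, mul_inv_cancel])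
  have hall : ∀ i, b i ∈ S' := by
    intro i
    by_contra hi
    have h4 := hmain (b i)
    have h5 : χ (b i) = ULift.up (Multiplicative.ofAdd 1) := by
      show FreeGroup.lift _ (b.repr (b i)) = _
      rw [FreeGroupBasis.repr_apply_coe, FreeGroup.lift_apply_of, if_neg hi]
    rw [h5] at h4
    have h6 : (Multiplicative.ofAdd (1 : ZMod 2)) = 1 := congrArg ULift.down h4
    have h7 : (1 : ZMod 2) = 0 := h6
    exact absurd h7 (by decide)
  have htop : Subgroup.closure S' = ⊤ := by
    rw [eq_top_iff, ← hb, Subgroup.closure_le]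
    rintro _ ⟨i, rfl⟩
    exact Subgroup.subset_closure (hall i)
  have hfg : Group.FG Φ := ⟨⟨h2.toFinset, by rw [h2.coe_toFinset]; exact htop⟩⟩
  exact (Group.fg_iff_subgroup_fg Φ).1 hfg

end Pool.Agent.H66.WS
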