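import Pool.Agent.H66.WS.Hol
import Pool.Graph.R_pool_sql_team_seeded_620a6dc7.Helper202_WS.CWS

/-!
The main lemma: homomorphisms from the trace on a free group of a topologically finitely generated
subgroup (of the profinite completion) to subgroup weakly sofic groups.
-/

set_option linter.unusedSectionVars false

open Filter Subgroup Pool.Agent.Helper202WS

namespace Pool.Agent.H66.WS

universe u

/-- finite index normal subgroups of a free group -/
def FI (α : Type u) : Type u := {V : Subgroup (FreeGroup α) // V.Normal ∧ V.FiniteIndex}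

variable {α J : Type u}

/-- the subgroup at level `U` -/
def TT (n : J → FreeGroup α) (z : FI α → J → FreeGroup α) (U : FI α) : Subgroup (FreeGroup α) :=
  Subgroup.closure (Set.range fun j => (z U j)⁻¹ * n j * z U j) ⊔ U.1

/-- the trace -/
def Phi (n : J → FreeGroup α) (z : FI α → J → FreeGroup α) : Subgroup (FreeGroup α) :=
  ⨅ U, TT n z U

variable {n : J → FreeGroup α} {z : FI α → J → FreeGroup α}

theorem le_TT (U : FI α) : U.1 ≤ TT n z U := le_sup_right

theorem mem_TT (U : FI α) (j : J) : (z U j)⁻¹ * n j * z U j ∈ TT n z U :=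
  Subgroup.mem_sup_left (Subgroup.subset_closure ⟨j, rfl⟩)

theorem TT_mono (hz : ∀ U V : FI α, V.1 ≤ U.1 → ∀ j, (z V j)⁻¹ * z U j ∈ U.1) {U V : FI α}
    (h : V.1 ≤ U.1) : TT n z V ≤ TT n z U := by
  apply sup_le
  · rw [Subgroup.closure_le]
    rintro _ ⟨j, rfl⟩
    have h1 := hz U V h j
    have h2 : (z V j)⁻¹ * n j * z V j = ((z V j)⁻¹ * z U j) * ((z U j)⁻¹ * n j * z U j) *
        ((z V j)⁻¹ * z U j)⁻¹ := by group
    show (z V j)⁻¹ * n j * z V j ∈ TT n z U
    rw [h2]
    exact mul_mem (mul_mem (le_TT U h1) (mem_TT U j)) (inv_mem (le_TT U h1))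
  · exact h.trans (le_TT U)

theorem mem_Phi {x : FreeGroup α} : x ∈ Phi n z ↔ ∀ U, x ∈ TT n z U := by
  unfold Phi
  rw [Subgroup.mem_iInf]

/-- `f` represents the point of index `j` -/
def Rep (n : J → FreeGroup α) (z : FI α → J → FreeGroup α) (j : J) (f : FreeGroup α) : Prop :=
  ∀ U, f⁻¹ * z U j ∈ TT n z U

theorem Rep.mem {j : J} {f : FreeGroup α} (h : Rep n z j f) : f⁻¹ * n j * f ∈ Phi n z := by
  rw [mem_Phi]
  intro U
  have h2 : f⁻¹ * n j * f = (f⁻¹ * z U j) * ((z U j)⁻¹ * n j * z U j) * (f⁻¹ * z U j)⁻¹ := by group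
  rw [h2]
  exact mul_mem (mul_mem (h U) (mem_TT U j)) (inv_mem (h U))

/-- the canonical cocycle of the coset space -/
noncomputable def coc (Φ : Subgroup (FreeGroup α)) (u : FreeGroup α) (p : FreeGroup α ⧸ Φ) : Φ :=
  ⟨(Quotient.out (u • p))⁻¹ * (u * Quotient.out p), by
    rw [← QuotientGroup.eq, QuotientGroup.out_eq', ← smul_eq_mul, ← MulAction.Quotient.smul_mk,
      QuotientGroup.out_eq']⟩

theorem coc_mul (Φ : Subgroup (FreeGroup α)) (u v : FreeGroup α) (p : FreeGroup α ⧸ Φ) :
    coc Φ (u * v) p = coc Φ u (v • p) * coc Φ v p := by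
  apply Subtype.ext
  show (Quotient.out ((u * v) • p))⁻¹ * (u * v * Quotient.out p) =
    ((Quotient.out (u • v • p))⁻¹ * (u * Quotient.out (v • p))) *
      ((Quotient.out (v • p))⁻¹ * (v * Quotient.out p))
  rw [mul_smul]
  group

theorem coc_fix (Φ : Subgroup (FreeGroup α)) (u : FreeGroup α) (p : FreeGroup α ⧸ Φ)
    (h : u • p = p) : ((coc Φ u p : Φ) : FreeGroup α) =
      (Quotient.out p)⁻¹ * (u * Quotient.out p) := by
  show (Quotient.out (u • p))⁻¹ * (u * Quotient.out p) = _
  rw [h]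

/-- finitely many conditions, each true at all deep levels -/
theorem exists_level {ι : Type*} (S : Set ι) (hS : S.Finite) (P : ι → FI α → Prop)
    (h : ∀ s ∈ S, ∃ U : FI α, ∀ V : FI α, V.1 ≤ U.1 → P s V) :
    ∃ U : FI α, ∀ V : FI α, V.1 ≤ U.1 → ∀ s ∈ S, P s V := by
  induction S, hS using Set.Finite.induction_on with
  | empty =>
    refine ⟨⟨⊤, inferInstance, inferInstance⟩, ?_⟩
    intro V _ s hs
    exact absurd hs (Set.notMem_empty s)
  | @insert a s _ _ ih =>
    obtain ⟨U1, h1⟩ := ih (fun s hs => h s (Set.mem_insert_of_mem _ hs))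
    obtain ⟨U2, h2⟩ := h a (Set.mem_insert _ _)
    have i1 := U1.2.1
    have i2 := U2.2.1
    have i3 := U1.2.2
    have i4 := U2.2.2
    refine ⟨⟨U1.1 ⊓ U2.1, inferInstance, inferInstance⟩, ?_⟩
    intro V hV s hs
    rcases Set.mem_insert_iff.1 hs with rfl | hs
    · exact h2 V (hV.trans inf_le_right)
    · exact h1 V (hV.trans inf_le_left) s hs

section main

variable (hz : ∀ U V : FI α, V.1 ≤ U.1 → ∀ j, (z V j)⁻¹ * z U j ∈ U.1)
include hz

theorem main_lemma [Finite J] {A : Type u} [Group A] (hA : SubgroupWeaklySofic A)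
    (χ : Phi n z →* A)
    (hχ : ∀ j f (hf : Rep n z j f), χ ⟨f⁻¹ * n j * f, hf.mem⟩ = 1) (g : Phi n z) : χ g = 1 := by
  classical
  obtain ⟨I, 𝓤, H, iG, iF, M, p, _, _, hN, hM, hp, hp1, _, _⟩ := to_ultra hA PUnit
  -- the injective homomorphism to the quotient
  let π : (∀ i, H i) →* (∀ i, H i) ⧸ M := QuotientGroup.mk' M
  let pb : A →* (∀ i, H i) ⧸ M := MonoidHom.mk' (fun a => π (p a)) (by
    intro a b
    have h1 := (QuotientGroup.eq_one_iff (N := M) _).2 (hp a b)
    rw [QuotientGroup.mk_mul, QuotientGroup.mk_mul, QuotientGroup.mk_inv, mul_inv_eq_one] at h1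
    exact h1.symm)
  have hpb : ∀ a, pb a = 1 → a = 1 := by
    intro a ha
    by_contra h
    exact hp1 a h ((QuotientGroup.eq_one_iff (N := M) _).1 ha)
  -- notation
  let Φ : Subgroup (FreeGroup α) := Phi n z
  have hrep : ∀ j, ∃ f, (∃ f, Rep n z j f) → Rep n z j f := by
    intro j
    by_cases h : ∃ f, Rep n z j f
    · obtain ⟨f, hf⟩ := h
      exact ⟨f, fun _ => hf⟩
    · exact ⟨1, fun h' => absurd h' h⟩
  choose f hf using hrep
  choose E hE using fun u : FreeGroup α => hol_local.{u, u, u, u} u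
  let p0 : FreeGroup α ⧸ Φ := ((1 : FreeGroup α) : FreeGroup α ⧸ Φ)
  let pj : J → FreeGroup α ⧸ Φ := fun j => ((f j : FreeGroup α) : FreeGroup α ⧸ Φ)
  let P0 : Set (FreeGroup α ⧸ Φ) := ((fun e => e • p0) '' (E (g : FreeGroup α) : Set (FreeGroup α))) ∪
    ⋃ j, ((fun e => e • pj j) '' (E (n j) : Set (FreeGroup α)))
  have hP0 : P0.Finite := by
    refine Set.Finite.union ((Finset.finite_toSet _).image _) ?_
    exact Set.finite_iUnion (fun j => (Finset.finite_toSet _).image _)
  -- choice of the level `U`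
  have c1 : ∃ U : FI α, ∀ V : FI α, V.1 ≤ U.1 → ∀ s ∈ P0 ×ˢ P0,
      ((Quotient.out s.1)⁻¹ * Quotient.out s.2 ∈ TT n z V → s.1 = s.2) := by
    apply exists_level (P0 ×ˢ P0) (hP0.prod hP0) (fun s V =>
      ((Quotient.out s.1)⁻¹ * Quotient.out s.2 ∈ TT n z V → s.1 = s.2))
    rintro ⟨a, b⟩ _
    by_cases hab : a = b
    · exact ⟨⟨⊤, inferInstance, inferInstance⟩, fun V _ _ => hab⟩
    · have h1 : (Quotient.out a)⁻¹ * Quotient.out b ∉ Φ := by
        intro h
        apply hab
        rw [← QuotientGroup.out_eq' a, ← QuotientGroup.out_eq' b]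
        exact QuotientGroup.eq.2 h
      have h2 : ¬ ∀ U, (Quotient.out a)⁻¹ * Quotient.out b ∈ TT n z U :=
        fun h => h1 (mem_Phi.2 h)
      push Not at h2
      obtain ⟨U, hU⟩ := h2
      exact ⟨U, fun V hV h => absurd (TT_mono hz hV h) hU⟩
  have c2 : ∃ U : FI α, ∀ V : FI α, V.1 ≤ U.1 →
      ∀ s ∈ (⋃ j : J, ((fun e => ((j, e) : J × FreeGroup α)) '' (E (n j) : Set (FreeGroup α)))) ×ˢ P0,
      ((Quotient.out s.2)⁻¹ * (s.1.2 * z V s.1.1) ∈ TT n z V → ∃ f, Rep n z s.1.1 f) := by
    apply exists_level _ ((Set.finite_iUnion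
      (fun j => (Finset.finite_toSet _).image _)).prod hP0) (fun (s : (J × FreeGroup α) × _) V =>
      ((Quotient.out s.2)⁻¹ * (s.1.2 * z V s.1.1) ∈ TT n z V → ∃ f, Rep n z s.1.1 f))
    rintro ⟨⟨j, e⟩, b⟩ _
    by_cases hab : ∃ f, Rep n z j f
    · exact ⟨⟨⊤, inferInstance, inferInstance⟩, fun V _ _ => hab⟩
    · have h1 : ¬ Rep n z j (e⁻¹ * Quotient.out b) := fun h => hab ⟨_, h⟩
      unfold Rep at h1
      push Not at h1
      obtain ⟨U, hU⟩ := h1
      refine ⟨U, fun V hV h => ?_⟩
      exfalso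
      apply hU
      have h3 := TT_mono hz hV h
      have h4 := le_TT (n := n) (z := z) U (hz U V hV j)
      have h5 : (e⁻¹ * Quotient.out b)⁻¹ * z U j =
          ((Quotient.out b)⁻¹ * (e * z V j)) * ((z V j)⁻¹ * z U j) := by group
      rw [h5]
      exact mul_mem h3 h4
  obtain ⟨U1, hU1⟩ := c1
  obtain ⟨U2, hU2⟩ := c2
  have iU1 := U1.2.1
  have iU2 := U2.2.1
  have iU3 := U1.2.2
  have iU4 := U2.2.2
  let U : FI α := ⟨U1.1 ⊓ U2.1, inferInstance, inferInstance⟩
  have hUU1 := hU1 U inf_le_left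
  have hUU2 := hU2 U inf_le_right
  have hΦU : Φ ≤ TT n z U := iInf_le _ U
  -- the finite set
  let Z : Type u := FreeGroup α ⧸ TT n z U
  have hUfi : (TT n z U).FiniteIndex := by
    have := U.2.2
    exact Subgroup.finiteIndex_of_le (le_TT U)
  have hZfin : Finite Z := Subgroup.finite_quotient_of_finiteIndex
  let θ : FreeGroup α ⧸ Φ → Z := Quotient.map' id (by
    intro a b hab
    rw [QuotientGroup.leftRel_apply] at hab ⊢
    exact hΦU hab)
  have hθmk : ∀ a : FreeGroup α, θ ((a : FreeGroup α) : FreeGroup α ⧸ Φ) = ((a : FreeGroup α) : Z) :=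
    fun a => rfl
  have hθ : ∀ (a : FreeGroup α) (q : FreeGroup α ⧸ Φ), θ (a • q) = a • θ q := by
    intro a q
    induction q using QuotientGroup.induction_on with
    | H b => rfl
  have hθout : ∀ q : FreeGroup α ⧸ Φ, θ q = ((Quotient.out q : FreeGroup α) : Z) := by
    intro q
    conv_lhs => rw [← QuotientGroup.out_eq' q]
    rfl
  have hinj : ∀ a ∈ P0, ∀ b ∈ P0, θ a = θ b → a = b := by
    intro a ha b hb hab
    apply hUU1 (a, b) ⟨ha, hb⟩
    rw [hθout, hθout] at hab
    exact QuotientGroup.eq.1 hab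
  -- the labelling
  let c' : α → FreeGroup α ⧸ Φ → A := fun a q => χ (coc Φ (FreeGroup.of a) q)
  have hc' : ∀ u q, hol c' u q = χ (coc Φ u q) := by
    intro u q
    refine (hol_unique c' (fun u q => χ (coc Φ u q)) ?_ (fun a q => rfl) u q).symm
    intro x y q
    rw [coc_mul, map_mul]
  let c : α → Z → (∀ i, H i) := fun a q =>
    if h : ∃ b ∈ P0, θ b = q then p (c' a h.choose) else 1
  have hcin : ∀ a, ∀ b ∈ P0, c a (θ b) = p (c' a b) := by
    intro a b hb
    have h : ∃ b' ∈ P0, θ b' = θ b := ⟨b, hb, rfl⟩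
    show (if h : ∃ b' ∈ P0, θ b' = θ b then p (c' a h.choose) else 1) = _
    rw [dif_pos h]
    rw [hinj _ h.choose_spec.1 b hb h.choose_spec.2]
  have hcout : ∀ a q, (¬ ∃ b ∈ P0, θ b = q) → c a q = 1 := by
    intro a q hq
    show (if h : ∃ b ∈ P0, θ b = q then p (c' a h.choose) else 1) = _
    rw [dif_neg hq]
  -- holonomy inside
  have hin : ∀ (u : FreeGroup α) (q : FreeGroup α ⧸ Φ), (∀ e ∈ E u, e • q ∈ P0) →
      π (hol c u (θ q)) = pb (χ (coc Φ u q)) := by
    intro u q hq
    rw [hol_map π c u (θ q), ← hc', hol_map pb c' u q]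
    apply hE u Z (FreeGroup α ⧸ Φ) inferInstance inferInstance ((∀ i, H i) ⧸ M) inferInstance θ hθ
    intro e he a
    show π (c a (θ (e • q))) = pb (c' a (e • q))
    rw [hcin a _ (hq e he)]
    rfl
  -- the values
  let τ : J → ∀ i, H i := fun j => hol c (n j) ((z U j : FreeGroup α) : Z)
  have hτ : ∀ j, τ j ∈ M := by
    intro j
    by_cases hj : ∃ f, Rep n z j f
    · have hfj := hf j hj
      have e1 : ((z U j : FreeGroup α) : Z) = θ (pj j) := by
        rw [hθmk]
        exact (QuotientGroup.eq.2 (hfj U)).symm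
      have e2 := hin (n j) (pj j) (fun e he => Or.inr (Set.mem_iUnion.2 ⟨j, e, he, rfl⟩))
      rw [← e1] at e2
      have e3 : n j • pj j = pj j := by
        show (((n j * f j : FreeGroup α)) : FreeGroup α ⧸ Φ) = ((f j : FreeGroup α) : _)
        apply Eq.symm
        apply QuotientGroup.eq.2
        rw [← mul_assoc]
        exact hfj.mem
      have e4 := coc_fix Φ (n j) (pj j) e3
      -- `out (pj j) = f j * φ`
      have e5 : (f j)⁻¹ * Quotient.out (pj j) ∈ Φ := by
        apply QuotientGroup.eq.1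
        rw [QuotientGroup.out_eq']
      let φ : Φ := ⟨_, e5⟩
      have e6 : coc Φ (n j) (pj j) = φ⁻¹ * ⟨(f j)⁻¹ * n j * f j, hfj.mem⟩ * φ := by
        apply Subtype.ext
        rw [e4]
        show _ = ((f j)⁻¹ * Quotient.out (pj j))⁻¹ * ((f j)⁻¹ * n j * f j) *
          ((f j)⁻¹ * Quotient.out (pj j))
        group
      have e7 : χ (coc Φ (n j) (pj j)) = 1 := by
        rw [e6, map_mul, map_mul, hχ j (f j) hfj, mul_one, map_inv, inv_mul_cancel]
      rw [e7, map_one] at e2
      exact (QuotientGroup.eq_one_iff (N := M) _).1 e2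
    · have e1 : τ j = 1 := by
        have h1 := hE (n j) Z Z inferInstance inferInstance (∀ i, H i) inferInstance id
          (fun _ _ => rfl) c (fun _ _ => 1) ((z U j : FreeGroup α) : Z) (by
            intro e he a
            apply hcout
            rintro ⟨b, hb, hbe⟩
            apply hj
            apply hUU2 ((j, e), b) ⟨Set.mem_iUnion.2 ⟨j, e, he, rfl⟩, hb⟩
            rw [hθout] at hbe
            exact QuotientGroup.eq.1 hbe)
        rw [hol_trivial] at h1
        exact h1
      rw [e1]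
      exact one_mem _
  -- the deep levels
  let ci : ∀ i, α → Z → H i := fun i a q => c a q i
  have hci : ∀ i u q, hol (ci i) u q = hol c u q i := by
    intro i u q
    exact (hol_map (Pi.evalMonoidHom H i) c u q).symm
  have hfinPerm : ∀ i, Finite (Equiv.Perm (Z × H i)) := fun i => inferInstance
  let V : I → FI α := fun i => ⟨(act (ci i)).ker ⊓ U.1, by
    have := U.2.1
    infer_instance, by
    have := U.2.2
    have := hfinPerm i
    have : (act (ci i)).ker.FiniteIndex := inferInstance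
    infer_instance⟩
  have hVU : ∀ i, (V i).1 ≤ U.1 := fun i => inf_le_right
  let q0 : Z := ((1 : FreeGroup α) : Z)
  have hpt : ∀ i j, z (V i) j • q0 = ((z U j : FreeGroup α) : Z) := by
    intro i j
    show (((z (V i) j * 1 : FreeGroup α)) : Z) = _
    apply QuotientGroup.eq.2
    rw [mul_one]
    exact le_TT U (hz U (V i) (hVU i) j)
  have hfix : ∀ j, n j • ((z U j : FreeGroup α) : Z) = ((z U j : FreeGroup α) : Z) := by
    intro j
    show (((n j * z U j : FreeGroup α)) : Z) = _
    apply Eq.symm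
    apply QuotientGroup.eq.2
    rw [← mul_assoc]
    exact mem_TT U j
  let t : J → ∀ i, H i := fun j i => hol (ci i) ((z (V i) j)⁻¹ * n j * z (V i) j) q0
  have hfix2 : ∀ i j, ((z (V i) j)⁻¹ * n j * z (V i) j) • q0 = q0 := by
    intro i j
    rw [mul_smul, mul_smul, hpt, hfix, ← hpt i j, inv_smul_smul]
  have ht : ∀ j, t j ∈ M := by
    intro j
    have e : t j = (fun i => hol (ci i) (z (V i) j) q0)⁻¹ * τ j *
        (fun i => hol (ci i) (z (V i) j) q0) := by
      funext i
      show hol (ci i) ((z (V i) j)⁻¹ * n j * z (V i) j) q0 =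
        (hol (ci i) (z (V i) j) q0)⁻¹ * hol c (n j) ((z U j : FreeGroup α) : Z) i *
          hol (ci i) (z (V i) j) q0
      rw [hol_mul, hol_mul, hol_inv, hpt, hfix, hci i (n j)]
      congr 3
      rw [← hpt i j, inv_smul_smul]
    rw [e]
    have := hN.conj_mem _ (hτ j) (fun i => hol (ci i) (z (V i) j) q0)⁻¹
    rwa [inv_inv] at this
  -- the element
  let γ : ∀ i, H i := hol c (g : FreeGroup α) q0
  have hγ : γ ∈ M := by
    refine hM (Set.range t) (Set.finite_range t) ?_ γ (Filter.Eventually.of_forall ?_)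
    · rintro _ ⟨j, rfl⟩
      exact ht j
    · intro i
      let S : Subgroup (FreeGroup α) :=
        { carrier := {u | u • q0 = q0 ∧ hol (ci i) u q0 ∈ gen (Set.range t) i}
          one_mem' := by
            refine ⟨one_smul _ _, ?_⟩
            rw [hol_one]
            exact one_mem _
          mul_mem' := by
            rintro a b ⟨ha, ha'⟩ ⟨hb, hb'⟩
            refine ⟨by rw [mul_smul, hb, ha], ?_⟩
            rw [hol_mul, hb]
            exact mul_mem ha' hb'
          inv_mem' := by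
            rintro a ⟨ha, ha'⟩
            have e : a⁻¹ • q0 = q0 := by
              conv_lhs => rw [← ha]
              rw [inv_smul_smul]
            refine ⟨e, ?_⟩
            rw [hol_inv, e]
            exact inv_mem ha' }
      have hS : TT n z (V i) ≤ S := by
        apply sup_le
        · rw [Subgroup.closure_le]
          rintro _ ⟨j, rfl⟩
          exact ⟨hfix2 i j, mem_gen (T := Set.range t) (t := t j) ⟨j, rfl⟩ i⟩
        · intro v hv
          have h1 : act (ci i) v = 1 := hv.1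
          have h2 := act_apply (ci i) v q0 1
          rw [h1] at h2
          have h3 : v • q0 = q0 := (congrArg Prod.fst h2).symm
          have h4 : hol (ci i) v q0 = 1 := by
            have := (congrArg Prod.snd h2).symm
            simpa using this
          refine ⟨h3, ?_⟩
          rw [h4]
          exact one_mem _
      have h1 := (hS (mem_Phi.1 g.2 (V i))).2
      rw [hci] at h1
      exact h1
  -- conclusion
  have e1 : (g : FreeGroup α) • p0 = p0 := by
    show ((((g : FreeGroup α) * 1 : FreeGroup α)) : FreeGroup α ⧸ Φ) = _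
    apply Eq.symm
    apply QuotientGroup.eq.2
    rw [inv_one, one_mul, mul_one]
    exact g.2
  have e2 := hin (g : FreeGroup α) p0 (fun e he => Or.inl ⟨e, he, rfl⟩)
  have e3 : π (hol c (g : FreeGroup α) (θ p0)) = 1 := (QuotientGroup.eq_one_iff (N := M) _).2 hγ
  rw [e3] at e2
  have e4 := hpb _ e2.symm
  have e5 : (1 : FreeGroup α)⁻¹ * Quotient.out p0 ∈ Φ := by
    apply QuotientGroup.eq.1
    rw [QuotientGroup.out_eq']
  rw [inv_one, one_mul] at e5
  let φ : Φ := ⟨_, e5⟩
  have e6 : coc Φ (g : FreeGroup α) p0 = φ⁻¹ * g * φ := by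
    apply Subtype.ext
    rw [coc_fix Φ _ _ e1]
    show (Quotient.out p0)⁻¹ * ((g : FreeGroup α) * Quotient.out p0) =
      (Quotient.out p0)⁻¹ * (g : FreeGroup α) * Quotient.out p0
    group
  rw [e6, map_mul, map_mul, map_inv] at e4
  have e7 : χ g = χ φ * ((χ φ)⁻¹ * χ g * χ φ) * (χ φ)⁻¹ := by group
  rw [e7, e4, mul_one, mul_inv_cancel]

end main

end Pool.Agent.H66.WS
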